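import Pool.Agent.W650.HL.Stm

set_option autoImplicit false

namespace Pool.W452.HL

open Pool.W650.HL

lemma log_one_add_ge (x : ℝ) (hx : 0 ≤ x) : x - x ^ 2 / 2 ≤ Real.log (1 + x) := by
  have h := Real.le_log_one_add_of_nonneg hx
  refine le_trans ?_ h
  rw [le_div_iff₀ (by linarith)]
  have : 0 ≤ x ^ 3 := by positivity
  nlinarith [this]

lemma log_one_sub_ge (z : ℝ) (hz : 0 ≤ z) (hz1 : z ≤ 3 / 8) :
    -z - z ^ 2 / 2 - z ^ 3 / 3 - (433 / 1000) * z ^ 4 ≤ Real.log (1 - z) := by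
  have h := Real.abs_log_sub_add_sum_range_le (x := z) (by rw [abs_of_nonneg hz]; linarith) 6
  rw [abs_of_nonneg hz] at h
  have h2 := (abs_le.1 h).1
  have h3 : z ^ (6 + 1) / (1 - z) ≤ 8 / 5 * z ^ 7 := by
    rw [div_le_iff₀ (by linarith)]
    have : 0 ≤ z ^ 7 := by positivity
    nlinarith [this, mul_nonneg this (by linarith : (0 : ℝ) ≤ 3 / 8 - z)]
  simp only [Finset.sum_range_succ, Finset.sum_range_zero] at h2
  norm_num at h2
  have z4 : 0 ≤ z ^ 4 := by positivity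
  have a5 : z ^ 5 ≤ 3 / 8 * z ^ 4 := by
    have := mul_nonneg z4 (by linarith : (0 : ℝ) ≤ 3 / 8 - z)
    nlinarith [this]
  have z5 : 0 ≤ z ^ 5 := by positivity
  have a6 : z ^ 6 ≤ 3 / 8 * z ^ 5 := by
    have := mul_nonneg z5 (by linarith : (0 : ℝ) ≤ 3 / 8 - z)
    nlinarith [this]
  have z6 : 0 ≤ z ^ 6 := by positivity
  have a7 : z ^ 7 ≤ 3 / 8 * z ^ 6 := by
    have := mul_nonneg z6 (by linarith : (0 : ℝ) ≤ 3 / 8 - z)
    nlinarith [this]
  norm_num at h3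
  linarith

lemma poly1 (s : ℝ) (h1 : 1 ≤ s) (h2 : s ≤ 8 / 5) :
    0 ≤ 4 * s - (81 / 4096) * s ^ 4 - 2 * s ^ 2 - (8 - 5 * s) * s ^ 2 / 6
      - (433 / 16000) * (8 - 5 * s) ^ 2 * s ^ 2 - 1 := by
  have e1 : 0 ≤ s - 1 := by linarith
  have e2 : 0 ≤ 8 / 5 - s := by linarith
  have h3 := mul_nonneg (mul_nonneg e1 e2) (sq_nonneg (s - 853 / 1000))
  have h4 := mul_nonneg e1 e2
  nlinarith [h3, h4, e1, e2]

theorem finp : FINP := by
  intro b v y hb hb' hv hvb hy hyb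
  have hv1 : v ≤ 9 / 160 := by
    nlinarith [sq_nonneg (b - 3 / 10), mul_nonneg hv hb]
  have h1v : 0 < 1 + v := by linarith
  have hs : 0 < 1 + b := by linarith
  have hz0 : 0 ≤ y / (1 + v) := by positivity
  have hz1 : y / (1 + v) ≤ 3 / 8 := by
    rw [div_le_iff₀ h1v]; linarith
  have hw0 : 0 ≤ y / (1 + b) := by positivity
  have hL1 := log_one_add_ge v hv
  have hL2 := log_one_sub_ge _ hz0 hz1
  have hL3 := log_one_add_ge _ hw0
  have hlog : Real.log (1 + v - y) = Real.log (1 + v) + Real.log (1 - y / (1 + v)) := by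
    rw [← Real.log_mul (by linarith) (by linarith)]
    congr 1
    field_simp
  rw [hlog]
  -- reciprocals
  obtain ⟨t, ht⟩ : ∃ t, t = 1 / (1 + v) := ⟨_, rfl⟩
  obtain ⟨u, hu⟩ : ∃ u, u = 1 / (1 + b) := ⟨_, rfl⟩
  have ht0 : 0 < t := by rw [ht]; positivity
  have hu0 : 0 < u := by rw [hu]; positivity
  have htv : t * (1 + v) = 1 := by rw [ht]; field_simp
  have hub : u * (1 + b) = 1 := by rw [hu]; field_simp
  have ezt : y / (1 + v) = y * t := by rw [ht]; field_simp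
  have ewu : y / (1 + b) = y * u := by rw [hu]; field_simp
  have e4 : -4 / (1 + v) = -4 * t := by rw [ht]; field_simp
  have e2 : 2 / (1 + b) = 2 * u := by rw [hu]; field_simp
  have eK : (4 - 2 * v - (3 / 8 * (1 + b + v)) ^ 4 / (1 + b)) / (1 + b)
      = (4 - 2 * v - (3 / 8 * (1 + b + v)) ^ 4 * u) * u := by rw [hu]; field_simp
  rw [ezt] at hL2
  rw [ewu] at hL3
  rw [e4, e2, eK, ezt, ewu]
  have ht1 : t ≤ 1 := by nlinarith
  have ht2 : t ^ 2 ≤ 1 - 2 * v + 3 * v ^ 2 := by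
    have h : t = 1 - v * t := by linarith
    -- t^2 (1+v)^2 = 1 ≤ (1-2v+3v^2)(1+v)^2 = 1 + 4 v^3 + 3 v^4
    have h2 : t ^ 2 * (1 + v) ^ 2 = 1 := by
      have : (t * (1 + v)) ^ 2 = 1 := by rw [htv]; norm_num
      nlinarith [this]
    have h3 : 1 ≤ (1 - 2 * v + 3 * v ^ 2) * (1 + v) ^ 2 := by
      have : 0 ≤ v ^ 3 := by positivity
      have : 0 ≤ v ^ 4 := by positivity
      nlinarith
    by_contra hc
    push Not at hc
    have : (1 - 2 * v + 3 * v ^ 2) * (1 + v) ^ 2 < t ^ 2 * (1 + v) ^ 2 :=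
      mul_lt_mul_of_pos_right hc (by positivity)
    linarith
  have ht3 : t ^ 3 ≤ 1 := pow_le_one₀ ht0.le ht1
  have ht4 : t ^ 4 ≤ 1 := pow_le_one₀ ht0.le ht1
  -- bracket inequality
  have key : 2 * t ^ 2 + 4 / 3 * (y * t ^ 3) + 433 / 250 * (y ^ 2 * t ^ 4) + u ^ 2
      ≤ (4 - 2 * v - (3 / 8 * (1 + b + v)) ^ 4 * u) * u := by
    have hyt3 : y * t ^ 3 ≤ y := by nlinarith
    have hyt4 : y ^ 2 * t ^ 4 ≤ y ^ 2 := by nlinarith [sq_nonneg y]
    obtain ⟨s, hsb⟩ : ∃ s, s = 1 + b := ⟨_, rfl⟩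
    have hs1 : 1 ≤ s := by linarith
    have hs2 : s ≤ 8 / 5 := by linarith
    have hbs : b = s - 1 := by linarith
    obtain ⟨Y, hY⟩ : ∃ Y, Y = (8 - 5 * s + 3 * v) / 8 := ⟨_, rfl⟩
    have hyY : y ≤ Y := by rw [hY]; linarith
    have hY0 : 0 ≤ Y := le_trans hy hyY
    have hy2 : y ^ 2 ≤ Y ^ 2 := by nlinarith
    have hY2 : Y ^ 2 ≤ ((8 - 5 * s) / 8) ^ 2 + 29 / 100 * v := by
      have e : Y = (8 - 5 * s) / 8 + 3 / 8 * v := by rw [hY]; ring
      rw [e]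
      have : (8 - 5 * s) / 8 ≤ 3 / 8 := by linarith
      nlinarith [mul_nonneg hv (by linarith : 0 ≤ 3 / 8 - (8 - 5 * s) / 8),
        mul_nonneg hv (by linarith : 0 ≤ 9 / 160 - v)]
    have hv2 : v ^ 2 ≤ 9 / 160 * v := by nlinarith
    have hpow : (s + v) ^ 4 ≤ s ^ 4 + 185 / 10 * v := by
      have e : (s + v) ^ 4 - s ^ 4 = v * (4 * s ^ 3 + 6 * s ^ 2 * v + 4 * s * v ^ 2 + v ^ 3) := by
        ring
      have q1 : s ^ 2 ≤ 64 / 25 := by nlinarith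
      have q2 : s ^ 3 ≤ 512 / 125 := by
        have : s ^ 3 = s * s ^ 2 := by ring
        rw [this]; nlinarith
      have q3 : v ^ 2 ≤ 1 / 300 := by nlinarith
      have q4 : v ^ 3 ≤ 1 / 300 := by
        have : v ^ 3 = v * v ^ 2 := by ring
        rw [this]; nlinarith [sq_nonneg v]
      have q5 : s ^ 2 * v ≤ 64 / 25 * (9 / 160) := by
        apply mul_le_mul q1 hv1 hv (by norm_num)
      have q6 : s * v ^ 2 ≤ 8 / 5 * (1 / 300) := by
        apply mul_le_mul hs2 q3 (by positivity) (by norm_num)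
      have : (4 * s ^ 3 + 6 * s ^ 2 * v + 4 * s * v ^ 2 + v ^ 3) ≤ 185 / 10 := by linarith
      nlinarith [mul_le_mul_of_nonneg_left this hv]
    have hp := poly1 s hs1 hs2
    -- LHS bound
    have hLHS : 2 * t ^ 2 + 4 / 3 * (y * t ^ 3) + 433 / 250 * (y ^ 2 * t ^ 4)
        ≤ 2 + (8 - 5 * s) / 6 + 433 / 16000 * (8 - 5 * s) ^ 2 - 265 / 100 * v := by
      have e : 4 / 3 * Y = (8 - 5 * s) / 6 + v / 2 := by rw [hY]; ring
      have e' : 433 / 250 * ((8 - 5 * s) / 8) ^ 2 = 433 / 16000 * (8 - 5 * s) ^ 2 := by ring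
      linarith
    have hus : u * s = 1 := by rw [hsb]; exact hub
    -- multiply by s^2
    have hfin : (2 + (8 - 5 * s) / 6 + 433 / 16000 * (8 - 5 * s) ^ 2 - 265 / 100 * v) * s ^ 2 + 1
        ≤ (4 - 2 * v) * s - 81 / 4096 * (s + v) ^ 4 := by
      have hq : 0 ≤ 265 / 100 * s ^ 2 - 2 * s - 81 / 4096 * (185 / 10) := by nlinarith
      have hq2 := mul_nonneg hv hq
      linarith
    have hmul : (2 * t ^ 2 + 4 / 3 * (y * t ^ 3) + 433 / 250 * (y ^ 2 * t ^ 4) + u ^ 2) * s ^ 2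
        ≤ ((4 - 2 * v - (3 / 8 * (1 + b + v)) ^ 4 * u) * u) * s ^ 2 := by
      have e1 : ((4 - 2 * v - (3 / 8 * (1 + b + v)) ^ 4 * u) * u) * s ^ 2
          = (4 - 2 * v) * s * (u * s) - (81 / 4096) * (s + v) ^ 4 * (u * s) ^ 2 := by
        rw [hsb]; ring
      have e3 : (2 * t ^ 2 + 4 / 3 * (y * t ^ 3) + 433 / 250 * (y ^ 2 * t ^ 4) + u ^ 2) * s ^ 2
          = (2 * t ^ 2 + 4 / 3 * (y * t ^ 3) + 433 / 250 * (y ^ 2 * t ^ 4)) * s ^ 2
            + (u * s) ^ 2 := by ring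
      rw [e1, e3, hus]
      have := mul_le_mul_of_nonneg_right hLHS (sq_nonneg s)
      linarith
    exact le_of_mul_le_mul_right hmul (by positivity)
  have key2 := mul_le_mul_of_nonneg_left key (sq_nonneg y)
  have e5 : (y * t) ^ 2 = y ^ 2 * t ^ 2 := by ring
  have e6 : (y * t) ^ 3 = y ^ 2 * (y * t ^ 3) := by ring
  have e7 : (y * t) ^ 4 = y ^ 2 * (y ^ 2 * t ^ 4) := by ring
  have e8 : (y * u) ^ 2 = y ^ 2 * u ^ 2 := by ring
  rw [e5, e6, e7] at hL2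
  rw [e8] at hL3
  linarith [key2, hL1, hL2, hL3]

end Pool.W452.HL
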